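import Pool.Agent.W2helper77.SH.All

/-!
Shape laws of square-lattice self-avoiding polygons: the joint laws of the enclosed region (as a
mass distribution), of the occupation measure of the vertices and of the convex hull, normalised by
the mean area and the mean width, for the perimeters `2 n` and `2 n + 2`, are at bounded-Lipschitz
distance at most `K (log n) / n^(1/2)`; convergence in distribution along sparse sequences implies
convergence in distribution.
-/

open Filter Topology MeasureTheory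

namespace Pool.Agent.Results.MP_f6626d_co.ShapeLawsMerge

/-- a closed nearest-neighbour loop on `ℤ²` with `m` steps, rooted at the origin and oriented,
that visits no vertex twice -/
def IsLoop (m : ℕ) (f : ZMod m → ℤ × ℤ) : Prop :=
  f 0 = 0 ∧ Function.Injective f ∧
    ∀ i : ZMod m, |(f (i + 1)).1 - (f i).1| + |(f (i + 1)).2 - (f i).2| = 1

/-- the edge from `f k` to `f (k+1)` is horizontal, joins the columns `x = a` and `x = a + 1`, and
has height larger than `b`: it lies above the unit cell `[a, a+1] × [b, b+1]` -/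
def Above (m : ℕ) (f : ZMod m → ℤ × ℤ) (a b : ℤ) (k : ZMod m) : Prop :=
  (((f k).1 = a ∧ (f (k + 1)).1 = a + 1) ∨ ((f k).1 = a + 1 ∧ (f (k + 1)).1 = a)) ∧ b < (f k).2

/-- the unit cell `[a, a+1] × [b, b+1]` is enclosed by the loop: the vertical ray from the cell
upwards crosses an odd number of edges -/
def Encl (m : ℕ) (f : ZMod m → ℤ × ℤ) (c : ℤ × ℤ) : Prop :=
  Odd (Nat.card {k : ZMod m // Above m f c.1 c.2 k})

/-- the area: the number of unit cells enclosed by the loop -/
noncomputable def area (m : ℕ) (f : ZMod m → ℤ × ℤ) : ℕ := Nat.card {c : ℤ × ℤ // Encl m f c}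

/-- the horizontal extent of the loop -/
noncomputable def width (m : ℕ) (f : ZMod m → ℤ × ℤ) : ℕ :=
  sSup {w : ℕ | ∃ i j, w = ((f i).1 - (f j).1).natAbs}

/-- expectation under the uniform law on the (rooted, oriented) self-avoiding polygons of
perimeter `2 n` -/
noncomputable def E (n : ℕ) (F : (ZMod (2 * n) → ℤ × ℤ) → ℝ) : ℝ :=
  (∑ᶠ f ∈ {f : ZMod (2 * n) → ℤ × ℤ | IsLoop (2 * n) f}, F f) /
    ({f : ZMod (2 * n) → ℤ × ℤ | IsLoop (2 * n) f}.ncard : ℝ)

/-- the mean area `a_n = E[A_n]` -/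
noncomputable def meanArea (n : ℕ) : ℝ := E n (fun f => (area (2 * n) f : ℝ))

/-- the mean width `b_n` -/
noncomputable def meanWidth (n : ℕ) : ℝ := E n (fun f => (width (2 * n) f : ℝ))

/-- the lattice point `p` divided by `b` -/
noncomputable def pt (b : ℝ) (p : ℤ × ℤ) : ℝ × ℝ := ((p.1 : ℝ) / b, (p.2 : ℝ) / b)

/-- the rescaled region: the sum of `h (c / b)` over the enclosed cells `c` (given by their lower
left corners), divided by `a` -/
noncomputable def region (a b : ℝ) (m : ℕ) (f : ZMod m → ℤ × ℤ) (h : ℝ × ℝ → ℝ) : ℝ :=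
  (∑ᶠ c ∈ {c : ℤ × ℤ | Encl m f c}, h (pt b c)) / a

/-- the rescaled occupation measure: the mean of `k (v / b)` over the vertices `v` of the loop -/
noncomputable def occupation (b : ℝ) (m : ℕ) (f : ZMod m → ℤ × ℤ) (k : ℝ × ℝ → ℝ) : ℝ :=
  (∑ᶠ i : ZMod m, k (pt b (f i))) / m

/-- the support function of the convex hull of the loop divided by `b`: `max ⟨v, u⟩ / b` over the
vertices `v` -/
noncomputable def hull (b : ℝ) (m : ℕ) (f : ZMod m → ℤ × ℤ) (u : ℝ × ℝ) : ℝ :=
  (⨆ i : ZMod m, ((f i).1 * u.1 + (f i).2 * u.2)) / b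

/-- the test functions: bounded by `M` and `|h (l x) - h x| ≤ M (l - 1)` for all `x` and `l ≥ 1`.
Constants and Lipschitz functions with compact support have this property for some `M`. -/
def Test (M : ℝ) (h : ℝ × ℝ → ℝ) : Prop :=
  (∀ x, |h x| ≤ M) ∧ ∀ (x : ℝ × ℝ) (l : ℝ), 1 ≤ l → |h (l * x.1, l * x.2) - h x| ≤ M * (l - 1)

/-- `(ℝ^j)³` -/
abbrev Vec (j : ℕ) : Type := (Fin j → ℝ) × (Fin j → ℝ) × (Fin j → ℝ)

/-- `E[G(X_n)]` for the vector `X_n ∈ (ℝ^j)³` of the values of the region at `h_1, …, h_j`, of the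
occupation measure at `k_1, …, k_j` and of the support function at `u_1, …, u_j`, for the uniform
polygon of perimeter `2 n`, normalised by its own mean area and mean width -/
noncomputable def L {j : ℕ} (h k : Fin j → ℝ × ℝ → ℝ) (u : Fin j → ℝ × ℝ) (n : ℕ)
    (G : Vec j → ℝ) : ℝ :=
  E n (fun f => G (fun i => region (meanArea n) (meanWidth n) (2 * n) f (h i),
    fun i => occupation (meanWidth n) (2 * n) f (k i), fun i => hull (meanWidth n) (2 * n) f (u i)))

/-- **Theorem.** (1) There is `K` such that for all `n ≥ 2`, all `j`, all test functions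
`h_i, k_i` with `M = 1`, all `u_i ∈ [-1,1]²` and all `G : (ℝ^j)³ → [-1, 1]` with Lipschitz constant
`1` for the sup-distance, `|E[G(X_{n+1})] - E[G(X_n)]| ≤ K (log n) / n^(1/2)`.
(2) Let `s_k → ∞` be a sequence of integers with `(s_{k+1} - s_k) (log s_k) / s_k^(1/2) → 0`, let
`h_i, k_i` be test functions (with any `M`), `u_i ∈ ℝ²`, and `ν` a Borel probability measure on
`(ℝ^j)³`.  If `E[G(X_n)] → ∫ G dν` along `n = s_k` for all bounded continuous `G`, then along all
`n` for all bounded continuous `G`. -/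
theorem result :
    (∃ K : ℝ, ∀ n : ℕ, 2 ≤ n → ∀ (j : ℕ) (h k : Fin j → ℝ × ℝ → ℝ) (u : Fin j → ℝ × ℝ)
      (G : Vec j → ℝ), (∀ i, Test 1 (h i)) → (∀ i, Test 1 (k i)) →
      (∀ i, |(u i).1| ≤ 1 ∧ |(u i).2| ≤ 1) → (∀ p q, |G p - G q| ≤ dist p q) →
      (∀ p, |G p| ≤ 1) →
      |L h k u (n + 1) G - L h k u n G| ≤ K * (Real.log n / Real.sqrt n)) ∧
    ∀ s : ℕ → ℕ, Tendsto s atTop atTop →
      Tendsto (fun t => ((s (t + 1) : ℝ) - s t) * (Real.log (s t) / Real.sqrt (s t)))
        atTop (𝓝 0) →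
      ∀ (j : ℕ) (M : ℝ) (h k : Fin j → ℝ × ℝ → ℝ) (u : Fin j → ℝ × ℝ),
      (∀ i, Test M (h i)) → (∀ i, Test M (k i)) →
      ∀ ν : Measure (Vec j), IsProbabilityMeasure ν →
      (∀ G : Vec j → ℝ, Continuous G → (∃ C, ∀ x, |G x| ≤ C) →
        Tendsto (fun t => L h k u (s t) G) atTop (𝓝 (∫ x, G x ∂ν))) →
      ∀ G : Vec j → ℝ, Continuous G → (∃ C, ∀ x, |G x| ≤ C) →
        Tendsto (fun n => L h k u n G) atTop (𝓝 (∫ x, G x ∂ν)) := by
  refine ⟨?_, fun s hs hgap' j M h k u hh hk ν hν hc G hG hGb => ?_⟩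
  · obtain ⟨K, hK⟩ := Pool.Agent.W2helper77.SH.merge
    exact ⟨K, fun n hn j h k u G h1 h2 h3 h4 h5 => by
      rw [← Pool.Agent.TH508.LT.rN_eq hn]; exact hK n hn j h k u G h1 h2 h3 h4 h5⟩
  have hgap := Pool.Agent.TH303.LTwo.gap s hs hgap'
  exact Pool.Agent.W2helper77.SH.weak s hs hgap hh hk ν hc G hG hGb

end Pool.Agent.Results.MP_f6626d_co.ShapeLawsMerge
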